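import Pool.Agent.Y924.UF.Stm

/-!
# Project UF, CLO: variables of the formulas, closed sentences (helper686, for helper924)
-/

set_option autoImplicit false
set_option linter.unusedSimpArgs false

namespace Pool.Agent.Y686.UF

open Function
open Pool.Agent.Y924.EL
open Pool.Agent.Y924.UF

lemma below_large (φ : Fm) : ∃ V, ∀ V', V ≤ V' → Below V' φ := by
  induction φ with
  | eq i j => exact ⟨i + j + 1, fun V' h => by simp only [Below]; omega⟩
  | one i => exact ⟨i + 1, fun V' h => by simp only [Below]; omega⟩
  | add i j k => exact ⟨i + j + k + 1, fun V' h => by simp only [Below]; omega⟩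
  | mul i j k => exact ⟨i + j + k + 1, fun V' h => by simp only [Below]; omega⟩
  | val i => exact ⟨i + 1, fun V' h => by simp only [Below]; omega⟩
  | neg φ ih =>
    obtain ⟨V, hV⟩ := ih
    exact ⟨V, fun V' h => hV V' h⟩
  | and φ ψ ih1 ih2 =>
    obtain ⟨V, hV⟩ := ih1
    obtain ⟨W, hW⟩ := ih2
    exact ⟨V + W, fun V' h => ⟨hV V' (by omega), hW V' (by omega)⟩⟩
  | ex i φ ih =>
    obtain ⟨V, hV⟩ := ih
    exact ⟨V + i + 1, fun V' h => ⟨by omega, hV V' (by omega)⟩⟩

lemma below_inst (V : ℕ) (τ : Tp) (h : Fin 5 → Fm) (hτ : BelowT V τ)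
    (hh : ∀ i, Below V (h i)) : Below V (τ.inst h) := by
  induction τ with
  | hole i => exact hh i
  | atom φ => exact hτ
  | neg τ ih => exact ih hτ
  | and τ υ ih1 ih2 => exact ⟨ih1 hτ.1, ih2 hτ.2⟩
  | ex i τ ih => exact ⟨hτ.1, ih hτ.2⟩

lemma fv_exsT (n : ℕ) (h : Fin 5 → Fm) : ∀ τ : Tp,
    ((exsT n τ).inst h).fv = (τ.inst h).fv \ Finset.range n := by
  induction n with
  | zero =>
    intro τ
    simp [exsT]
  | succ n ih =>
    intro τ
    rw [exsT, ih]
    ext x
    simp only [Tp.inst, Fm.fv, Finset.mem_sdiff, Finset.mem_erase, Finset.mem_range]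
    constructor
    · rintro ⟨⟨h1, h2⟩, h3⟩
      exact ⟨h2, by omega⟩
    · rintro ⟨h2, h3⟩
      exact ⟨⟨by omega, h2⟩, by omega⟩

lemma below_fv (V : ℕ) (φ : Fm) (h : Below V φ) : ∀ x ∈ φ.fv, x < V := by
  induction φ with
  | eq i j =>
    intro x hx
    simp only [Fm.fv, Finset.mem_insert, Finset.mem_singleton] at hx
    simp only [Below] at h
    omega
  | one i =>
    intro x hx
    simp only [Fm.fv, Finset.mem_singleton] at hx
    simp only [Below] at h
    omega
  | add i j k =>
    intro x hx
    simp only [Fm.fv, Finset.mem_insert, Finset.mem_singleton] at hx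
    simp only [Below] at h
    omega
  | mul i j k =>
    intro x hx
    simp only [Fm.fv, Finset.mem_insert, Finset.mem_singleton] at hx
    simp only [Below] at h
    omega
  | val i =>
    intro x hx
    simp only [Fm.fv, Finset.mem_singleton] at hx
    simp only [Below] at h
    omega
  | neg φ ih => exact ih h
  | and φ ψ ih1 ih2 =>
    intro x hx
    simp only [Fm.fv, Finset.mem_union] at hx
    rcases hx with hx | hx
    · exact ih1 h.1 x hx
    · exact ih2 h.2 x hx
  | ex i φ ih =>
    intro x hx
    simp only [Fm.fv, Finset.mem_erase] at hx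
    exact ih h.2 x hx.2

lemma below_iter (V : ℕ) (T : Fin 5 → Tp) (hT : ∀ i, BelowT V (T i)) (n : ℕ) :
    ∀ h : Fin 5 → Fm, (∀ i, Below V (h i)) → ∀ i, Below V ((stepH T)^[n] h i) := by
  induction n with
  | zero => exact fun h hh i => hh i
  | succ n ih =>
    intro h hh i
    rw [iterate_succ_apply]
    exact ih _ (fun i => below_inst V (T i) h (hT i) hh) i

lemma below_powF {V : ℕ} (hV : 68 ≤ V) (k : ℕ) : Below V (powF k) := by
  induction k with
  | zero => simp only [powF, Below, true_and, and_true]; omega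
  | succ k ih => simp only [powF, Below, ih, true_and, and_true]; omega

lemma below_ExF {V : ℕ} (hV : 68 ≤ V) (p k : ℕ) : Below V (ExF p k) := by
  have hp := below_powF hV p
  induction k with
  | zero => simp only [ExF, Below, true_and, and_true]; omega
  | succ k ih => simp only [ExF, powC, Below, ih, hp, true_and, and_true]; omega

lemma below_BF {V : ℕ} (hV : 68 ≤ V) (p : ℕ) : Below V (BF p) := by
  have hp := below_powF hV p
  have hE := below_ExF hV p (p - 1)
  simp only [BF, HF, powC, Below, hp, hE, true_and, and_true]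
  omega

lemma below_cNum {V : ℕ} (hV : 68 ≤ V) (k : ℕ) : ∀ a, a < V → BelowT V (Tp.cNum k a) := by
  induction k with
  | zero =>
    intro a ha
    simp only [Tp.cNum, Tp.cFst, Tp.cD, Tp.cL, Tp.call1, Tp.call2, Tp.eqv, BelowT, Below, true_and, and_true]
    omega
  | succ k ih =>
    intro a ha
    have h1 := ih 32 (by omega)
    simp only [Tp.cNum, Tp.cSuc, Tp.cD, Tp.cL, Tp.call1, Tp.call2, Tp.eqv, BelowT, Below, h1, true_and, and_true]
    omega

theorem t_CLO : S_CLO := by
  refine ⟨below_large, below_inst, ?_, ?_, ?_⟩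
  · intro V τ h hτ hh
    rw [fv_exsT]
    ext x
    simp only [Finset.mem_sdiff, Finset.mem_range, Finset.notMem_empty, iff_false, not_and,
      not_not]
    exact below_fv V _ (below_inst V τ h hτ hh) x
  · intro V n T h hT hh
    exact below_iter V T hT n h hh
  · intro p cc V φ' hV hφ
    have hB := below_BF hV p
    have hn0 := below_cNum hV 0
    have hn1 := below_cNum hV 1
    have hn2 := below_cNum hV 2
    have hn3 := below_cNum hV 3
    have hn4 := below_cNum hV 4
    have hn5 := below_cNum hV 5
    have hn6 := below_cNum hV 6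
    refine ⟨?_, ?_, ?_, ?_⟩
    · intro i
      fin_cases i
      · show Below V (DF φ')
        simp only [DF, Below, hφ, true_and, and_true]
        omega
      · show Below V (LF p φ')
        simp only [LF, DFa, DF, BFa, Below, hφ, hB, true_and, and_true]
        omega
      · show Below V (EF p φ')
        simp only [EF, DFa, DF, BFa, Below, hφ, hB, true_and, and_true]
        omega
      · show 0 < V
        omega
      · show 0 < V
        omega
    · intro i
      fin_cases i
      · trivial
      · trivial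
      · trivial
      · show BelowT V Tp.A0
        simp only [Tp.A0, Tp.arg1, Tp.cFst, Tp.cD, Tp.cL, Tp.call1, Tp.call2, Tp.eqv, BelowT,
          Below, true_and, and_true]
        omega
      · show BelowT V Tp.P1
        simp only [Tp.P1, Tp.arg3, Tp.cNxt, Tp.cSuc, Tp.cFst, Tp.cD, Tp.cL, Tp.cE, Tp.call1,
          Tp.call2, Tp.call3, Tp.eqv, Tp.or, Tp.imp, Tp.all, BelowT, Below, true_and, and_true]
        omega
    · intro i
      fin_cases i
      · trivial
      · trivial
      · trivial
      · show BelowT V Tp.A1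
        simp only [Tp.A1, Tp.arg1, Tp.cA, Tp.cSuc, Tp.cFst, Tp.cD, Tp.cL, Tp.call1, Tp.call2,
          Tp.eqv, BelowT, Below, true_and, and_true]
        omega
      · trivial
    · have hcc := below_cNum hV cc
      refine ⟨?_, ?_, ?_⟩
      · simp only [FinT, Tp.isZ, Tp.cD, Tp.call1, Tp.eqv, Tp.imp, Tp.all, BelowT, Below, true_and, and_true]
        omega
      · simp only [OrdT, Tp.cL, Tp.cD, Tp.call1, Tp.call2, Tp.eqv, Tp.or, Tp.imp, Tp.all, BelowT,
          Below, true_and, and_true]
        omega
      · simp only [HBody, BelowT, Tp.cUni, Tp.cJust, Tp.cCases, Tp.cRec, Tp.cMem, Tp.cE1, Tp.isO,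
          Tp.cA, Tp.cP, Tp.cSuc, Tp.cFst, Tp.cD, Tp.cL, Tp.cE, Tp.call1, Tp.call2, Tp.call3,
          Tp.eqv, Tp.or, Tp.imp, Tp.all, Below,
          hcc 10 (by omega), hn1 12 (by omega), hn0 44 (by omega), hn1 44 (by omega),
          hn2 44 (by omega), hn3 44 (by omega), hn4 44 (by omega), hn5 44 (by omega),
          hn6 44 (by omega), true_and, and_true]
        omega

end Pool.Agent.Y686.UF
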